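import Pool.Agent.UMG.StmtsD

/-!
Squad UMG, row ZLE.
-/

set_option autoImplicit false

namespace Pool.Agent.UMG.D.H53

open Finset Pool.Agent.UMG

theorem zle (h1 : YgrStmt) (h2 : FupStmt) (h3 : TanStmt) (h4 : BetStmt) (h5 : CdvStmt) :
    ZleStmt := by
  intro K d c j hc
  have hC : (j + 1) * cnt c (j + 1) ≤ d.sum := (h5 d c hc).2.2.1 (j + 1) (by omega)
  have hC' : cnt c (j + 1) ≤ d.sum :=
    (Nat.le_mul_of_pos_left _ (Nat.succ_pos j)).trans hC
  have hF : Fr (j + 1) (cnt c (j + 1)) ≤ G d.sum K (j + 1) (cnt c (j + 1)) := by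
    refine (h2 d.sum (j + 1) (cnt c (j + 1)) (by omega)).trans ?_
    unfold G
    by_cases hj : j + 1 ≤ K
    · rw [if_pos hj]
      exact (h3 d.sum (j + 1) (cnt c (j + 1)) hC').1
    · rw [if_neg hj]
      exact h4 d.sum (j + 1) (cnt c (j + 1)) (by omega) hC
  have hR : ((scl d.sum K c j * F (j + 1) (cnt c (j + 1)) : ℕ) : ℝ) ≤ (Yt d.sum K c j : ℝ) := by
    rw [h1 d.sum K c j]
    push_cast
    exact mul_le_mul_of_nonneg_left hF (Nat.cast_nonneg _)
  exact_mod_cast hR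

end Pool.Agent.UMG.D.H53
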